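import Mathlib

set_option autoImplicit false

namespace Pool.Agent.Results.MP_391eb1_al.Yes

universe u

/-- the set `LCM(G)` -/
def LCM (G : Type u) [Group G] : Set G :=
  {x | ∀ n : ℕ, 0 < n → ∀ y : G, orderOf (x ^ n * y) ∣ Nat.lcm (orderOf (x ^ n)) (orderOf y)}

/-- the ratio `lcm(G)` -/
noncomputable def ratio (G : Type u) [Group G] : ℝ := (Nat.card (LCM G) : ℝ) / Nat.card G

/-- `lcm^*(G) > c`: every section `H/K` of `G` has ratio larger than `c` -/
def SecGt (c : ℝ) (G : Type u) [Group G] : Prop :=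
  ∀ (H : Subgroup G) (K : Subgroup H) [K.Normal], c < ratio (H ⧸ K)

def Sec (c : ℝ) (G : Type u) [Group G] : Prop :=
  ∀ (H : Subgroup G) (S : Type u) [Group S] (f : H →* S), Function.Surjective f → c < ratio S

lemma ratio_eq {G S : Type u} [Group G] [Group S] (e : G ≃* S) : ratio G = ratio S := by
  unfold ratio
  rw [Nat.card_congr e.toEquiv, Nat.card_congr (e.toEquiv.subtypeEquiv (p := (· ∈ LCM G))
    (q := (· ∈ LCM S)) fun x => ?_)]
  refine forall₂_congr fun n _ => ?_
  rw [e.surjective.forall]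
  refine forall_congr' fun y => ?_
  rw [← e.orderOf_eq, ← e.orderOf_eq (x ^ n), e.orderOf_eq y]; simp

/-- closure of the solution sets of `x ^ p ^ k = 1` under products -/
def Om (p : ℕ) (G : Type u) [Group G] : Prop :=
  ∀ k, ∀ x y : G, x ^ p ^ k = 1 → y ^ p ^ k = 1 → (x * y) ^ p ^ k = 1

lemma core (p : ℕ) [hp : Fact p.Prime] (n : ℕ) : ∀ (G : Type u) [Group G] [Finite G],
    IsPGroup p G → Nat.card G < n → Sec (1 - 1 / (p : ℝ) ^ 2) G → Om p G := by
  induction n with
  | zero => simp
  | succ n ih =>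
  intro G _ _ hG hn hS
  have sub : ∀ H : Subgroup G, H ≠ ⊤ → Om p H := fun H h => ih H (hG.to_subgroup H)
    (by
      have h1 := Subgroup.card_le_card_group H
      have h2 := mt (Subgroup.card_eq_iff_eq_top H).1 h
      omega)
    fun K S _ f hf => hS (K.map H.subtype) S
      (f.comp (K.equivMapOfInjective _ H.subtype_injective).symm.toMonoidHom)
      (hf.comp (MulEquiv.surjective _))
  by_cases h1 : ∀ x y : G, x ^ p = 1 → y ^ p = 1 → (x * y) ^ p = 1
  · let N : Subgroup G :=
      { carrier := {x | x ^ p = 1}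
        mul_mem' := h1 _ _
        one_mem' := one_pow _
        inv_mem' := fun {x} (h : x ^ p = 1) => show x⁻¹ ^ p = 1 by rw [inv_pow, h, inv_one] }
    have : N.Normal := ⟨fun a (h : a ^ p = 1) g => show _ ^ p = 1 by rw [conj_pow, h]; simp⟩
    cases subsingleton_or_nontrivial G with
    | inl _ => exact fun _ _ _ _ _ => Subsingleton.elim _ _
    | inr _ =>
    have N1 : N ≠ ⊥ := by
      obtain ⟨k, hk, e⟩ := hG.nontrivial_iff_card.1 ‹_›
      obtain ⟨x, hx⟩ := exists_prime_orderOf_dvd_card' (G := G) p (e ▸ dvd_pow_self p hk.ne')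
      refine (Subgroup.ne_bot_iff_exists_ne_one).2 
        ⟨⟨x, show x ^ p = 1 by rw [← hx, pow_orderOf_eq_one]⟩, fun e => ?_⟩
      rw [show x = 1 from congrArg Subtype.val e, orderOf_one] at hx
      exact hp.1.one_lt.ne hx
    have := ih (G ⧸ N) (hG.to_quotient N) (by
      have h1 := Subgroup.card_eq_card_quotient_mul_card_subgroup N
      have h2 := (Subgroup.one_lt_card_iff_ne_bot N).2 N1
      have h3 : 0 < Nat.card (G ⧸ N) := Nat.card_pos
      nlinarith) fun K S _ f hf => hS (K.comap (QuotientGroup.mk' N)) S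
        (f.comp ((QuotientGroup.mk' N).subgroupComap K))
        (hf.comp (MonoidHom.subgroupComap_surjective_of_surjective _ _
          (QuotientGroup.mk'_surjective N)))
    rintro (_ | k) x y hx hy
    · simp_all
    have e : ∀ x : G, x ^ p ^ (k + 1) = 1 ↔ (x : G ⧸ N) ^ p ^ k = 1 := fun x => by
      rw [← QuotientGroup.mk_pow, QuotientGroup.eq_one_iff, pow_succ, pow_mul]; rfl
    rw [e] at hx hy ⊢
    exact this k _ _ hx hy
  exfalso
  push Not at h1
  obtain ⟨x, y, hx, hy, hxy⟩ := h1
  have top : Subgroup.closure {x, y} = ⊤ := by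
    by_contra c
    have := sub _ c 1 ⟨x, Subgroup.subset_closure (by simp)⟩ ⟨y, Subgroup.subset_closure (by simp)⟩
      (Subtype.ext (by simpa)) (Subtype.ext (by simpa))
    exact hxy (by simpa using congrArg Subtype.val this)
  have key : ∀ x y : G, x ^ p = 1 → y ^ p = 1 → (x * y) ^ p ≠ 1 → Subgroup.closure {x, y} = ⊤ →
      (Subgroup.normalClosure {x}).index ≤ p ∧ ∀ g ∈ Subgroup.normalClosure {x}, g ^ p = 1 := by
    intro x y hx hy hxy top
    constructor
    · have : Subgroup.zpowers (y : G ⧸ Subgroup.normalClosure {x}) = ⊤ := by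
        rw [eq_top_iff, ← MonoidHom.range_eq_top.2 (QuotientGroup.mk'_surjective _),
          MonoidHom.range_eq_map, ← top, MonoidHom.map_closure, Subgroup.closure_le]
        rintro _ ⟨g, hg, rfl⟩
        rcases hg with hg | hg
        · have : (g : G ⧸ Subgroup.normalClosure {x}) = 1 :=
            (QuotientGroup.eq_one_iff _).2 (Subgroup.subset_normalClosure hg)
          rw [QuotientGroup.mk'_apply, this]; exact one_mem _
        · rw [hg]; exact Subgroup.mem_zpowers _
      rw [Subgroup.index, ← Subgroup.card_top, ← this, Nat.card_zpowers]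
      exact orderOf_le_of_pow_eq_one hp.1.pos (by rw [← QuotientGroup.mk_pow, hy]; rfl)
    have h2 : Subgroup.normalClosure {x} ≠ ⊤ := fun e => by
      have := hG.isNilpotent
      rcases eq_top_or_exists_le_coatom (Subgroup.zpowers x) with h | ⟨M, hM, h⟩
      · obtain ⟨i, rfl⟩ := h.ge (Subgroup.mem_top y)
        exact hxy (by rw [((Commute.refl x).zpow_right i).mul_pow, hx, hy, mul_one])
      · have := Subgroup.NormalizerCondition.normal_of_coatom M
          Group.normalizerCondition_of_isNilpotent hM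
        exact hM.1 (top_le_iff.1 (e.ge.trans (Subgroup.normalClosure_le_normal
          (by simpa using h))))
    intro g hg
    induction hg using Subgroup.closure_induction with
    | mem g hg =>
      obtain ⟨_, rfl, hc⟩ := Group.mem_conjugatesOfSet_iff.1 hg
      obtain ⟨c, rfl⟩ := isConj_iff.1 hc
      rw [conj_pow, hx]; simp
    | one => simp
    | mul a b ha hb h k =>
      simpa using congrArg Subtype.val (sub _ h2 1 ⟨a, ha⟩ ⟨b, hb⟩ (Subtype.ext (by simpa))
        (Subtype.ext (by simpa)))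
    | inv a _ h => rw [inv_pow, h, inv_one]
  obtain ⟨a1, a2⟩ := key x y hx hy hxy top
  obtain ⟨b1, b2⟩ := key y x hy hx (fun e => hxy (by
    rw [show x * y = x * (y * x) * x⁻¹ by group, conj_pow, e]; simp)) (Set.pair_comm x y ▸ top)
  set M := Subgroup.normalClosure {x} ⊓ Subgroup.normalClosure {y}
  have m1 : M.index ≤ p ^ 2 := Subgroup.index_inf_le.trans (by rw [sq]; gcongr)
  have m2 : Nat.card (LCM G) + Nat.card M ≤ Nat.card G := by
    rw [← Nat.card_sum]
    refine Nat.card_le_card_of_injective (Sum.elim Subtype.val fun c => x * c.1) ?_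
    have : ∀ c : M, x * c.1 ∉ LCM G := fun c h => by
      have := h 1 one_pos (c.1⁻¹ * y)
      rw [pow_one, mul_assoc, mul_inv_cancel_left] at this
      exact hxy (orderOf_dvd_iff_pow_eq_one.1 (this.trans (Nat.lcm_dvd
        (orderOf_dvd_of_pow_eq_one (a2 _ (mul_mem (Subgroup.subset_normalClosure rfl) c.2.1)))
        (orderOf_dvd_of_pow_eq_one
          (b2 _ (mul_mem (inv_mem c.2.2) (Subgroup.subset_normalClosure rfl)))))))
    rintro (a | a) (b | b) e
    · exact congrArg _ (Subtype.ext e)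
    · exact (this b ((show a.1 = x * b.1 from e) ▸ a.2)).elim
    · exact (this a ((show b.1 = x * a.1 from e.symm) ▸ b.2)).elim
    · exact congrArg _ (Subtype.ext (mul_left_cancel e))
  have m3 := hS ⊤ G Subgroup.topEquiv.toMonoidHom (MulEquiv.surjective _)
  have m4 : (Nat.card G : ℝ) ≤ Nat.card M * p ^ 2 := by
    rw [← M.card_mul_index]; exact_mod_cast Nat.mul_le_mul_left _ m1
  have m5 : (0 : ℝ) < Nat.card G := by exact_mod_cast Nat.card_pos
  have m6 : (0 : ℝ) < p ^ 2 := by exact_mod_cast pow_pos hp.1.pos 2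
  have m7 : (Nat.card (LCM G) : ℝ) + Nat.card M ≤ Nat.card G := by exact_mod_cast m2
  rw [ratio, lt_div_iff₀ m5, sub_mul, one_div, inv_mul_eq_div] at m3
  rw [← div_le_iff₀ m6] at m4
  linarith

theorem result (p : ℕ) (hp : p.Prime) : ∃ c : ℝ, 0 < c ∧ c < 1 ∧
    ∀ (G : Type u) [Group G] [Finite G], IsPGroup p G → SecGt c G → LCM G = Set.univ := by
  have := Fact.mk hp
  have h1 : (1 : ℝ) < p ^ 2 := by exact_mod_cast Nat.one_lt_pow two_ne_zero hp.one_lt
  refine ⟨1 - 1 / (p : ℝ) ^ 2, by rw [sub_pos, div_lt_one] <;> linarith,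
    sub_lt_self _ (by positivity), fun G _ _ hG h => Set.eq_univ_of_forall fun x n _ y => ?_⟩
  have := core p _ G hG (Nat.lt_succ_self _) fun H S _ f hf =>
    ratio_eq (QuotientGroup.quotientKerEquivOfSurjective f hf) ▸ h H f.ker
  obtain ⟨i, hi⟩ := IsPGroup.iff_orderOf.1 hG (x ^ n)
  obtain ⟨j, hj⟩ := IsPGroup.iff_orderOf.1 hG y
  refine (orderOf_dvd_of_pow_eq_one (this (max i j) _ _ ?_ ?_)).trans ?_
  · exact orderOf_dvd_iff_pow_eq_one.1 (hi ▸ pow_dvd_pow p (le_max_left i j))
  · exact orderOf_dvd_iff_pow_eq_one.1 (hj ▸ pow_dvd_pow p (le_max_right i j))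
  · rcases max_choice i j with e | e <;> rw [e]
    exacts [hi ▸ Nat.dvd_lcm_left _ _, hj ▸ Nat.dvd_lcm_right _ _]

end Pool.Agent.Results.MP_391eb1_al.Yes
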